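import Mathlib
import Pool.Agent.W849.R3UpFam

set_option autoImplicit false

/-!
# Poonen's strengthening for families over an antichain of degree at most three
-/

namespace Pool.Agent.Results.MP_75f39d_co.AntichainDegreeThree

/-- Let `G` be a finite family of finite sets no nonempty member of which is contained in another
one and such that every element lies in at most three members of `G`.  Let `A` be a nonempty
finite family each member of which is a union of members of `G` (`hgen`) and which is closed under
the union with a member of `G` (`hst`); such a family is union-closed.  If `A` separates the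
points of its union and is not the power set of its union, then some element lies in strictly
more than half of the members of `A`. -/
theorem result (A : Finset (Finset ℕ)) (hne : A.Nonempty)
    (hsep : ∀ x ∈ A.sup id, ∀ y ∈ A.sup id, x ≠ y →
      ∃ S ∈ A, (x ∈ S ∧ y ∉ S) ∨ (y ∈ S ∧ x ∉ S))
    (hpow : A ≠ (A.sup id).powerset) (G : Finset (Finset ℕ))
    (hst : ∀ S ∈ A, ∀ g ∈ G, S ∪ g ∈ A)
    (hgen : ∀ S ∈ A, ∀ i ∈ S, ∃ g ∈ G, i ∈ g ∧ g ⊆ S)
    (hanti : ∀ g ∈ G, ∀ h ∈ G, g ≠ ∅ → g ⊆ h → g = h)
    (hthree : ∀ i : ℕ, (G.filter (fun g => i ∈ g)).card ≤ 3) :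
    ∃ x ∈ A.sup id, 2 * (A.filter (fun S => x ∈ S)).card > A.card :=
  Pool.Agent.W849.R3U.poonen_up A hne hsep hpow G hst hgen hanti hthree

end Pool.Agent.Results.MP_75f39d_co.AntichainDegreeThree
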