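import Pool.Agent.W457.LenEq

/-!
Poonen's strengthening of the union-closed sets conjecture for families in which every chain of
nonempty members has at most five sets.
-/

namespace Pool.Agent.Results.MP_75f39d_co.LengthFive

open Finset

theorem result {α : Type*} [DecidableEq α] (A : Finset (Finset α)) (hne : A.Nonempty)
    (hU : ∀ X ∈ A, ∀ Y ∈ A, X ∪ Y ∈ A)
    (hsep : ∀ x ∈ A.sup id, ∀ y ∈ A.sup id, x ≠ y → ∃ X ∈ A, ¬ (x ∈ X ↔ y ∈ X))
    (hpow : A ≠ (A.sup id).powerset)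
    (hch : ∀ C ⊆ A, (∀ X ∈ C, X.Nonempty) → IsChain (· ⊆ ·) (C : Set (Finset α)) → C.card ≤ 5) :
    ∃ i ∈ A.sup id, A.card < 2 * (A.filter (fun X => i ∈ X)).card :=
  Pool.Agent.W457.Len.strict A hne hU hsep hpow hch

end Pool.Agent.Results.MP_75f39d_co.LengthFive
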