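import Mathlib
import Pool.Agent.W616.UC3s

/-!
# Poonen's strengthening for families generated by sets with at most three elements

Let `F` be a finite nonempty union-closed family in which every member is a union of members with at
most three elements. If `F` separates the points of its universe and is not a power set, then some
element lies in strictly more than half of the members.

The proof starts from the inequality of `Pool.Agent.W616.UC3` (weighted by the number of generators
containing them, the elements lie on the average in at least half of the members, and this holds in a
localised form below every member `Y`), and analyses the case of equality: if no element lies in more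
than half of the members, then the irreducible members are pairwise disjoint.
-/

namespace Pool.Agent.Results.MP_75f39d_co.SmallGenerators

open Pool.Agent.W616.UC3

theorem result {V : Type*} [DecidableEq V] (F : Finset (Finset V)) (hF : F.Nonempty)
    (hunion : ∀ X ∈ F, ∀ Y ∈ F, X ∪ Y ∈ F)
    (hgen : ∀ X ∈ F, ∀ x ∈ X, ∃ g ∈ F, g.card ≤ 3 ∧ x ∈ g ∧ g ⊆ X)
    (hsep : ∀ x ∈ F.sup id, ∀ y ∈ F.sup id, x ≠ y →
      ∃ S ∈ F, (x ∈ S ∧ y ∉ S) ∨ (y ∈ S ∧ x ∉ S))
    (hpow : F ≠ (F.sup id).powerset) :
    ∃ x ∈ F.sup id, F.card < 2 * (F.filter (fun S => x ∈ S)).card :=
  strict hF hunion hgen hsep hpow

end Pool.Agent.Results.MP_75f39d_co.SmallGenerators
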