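import Pool.Agent.W87.UCTight

/-!
# Poonen's strengthening for families with a strongly connected carry relation

Let `F` be a finite union-closed family of subsets of `C`, `C ∈ F`. Say that `a` carries `b` if
`T ∪ {b} ∈ F` for all `T ∈ F` with `a ∈ T`. If the digraph '`a` carries `b`' is strongly connected on `C`
and no element lies in more than half of the members of `F`, then `F` is `{∅, C}` or the power set of `C`.
In particular Poonen's strict conclusion holds for all separating families of this kind.
-/

namespace Pool.Agent.Results.MP_75f39d_co.StronglyConnected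

open Finset

/-- `a` carries `b` in `F`: `b` can be added to every member of `F` that contains `a`. -/
def Carries {V : Type*} [DecidableEq V] (F : Finset (Finset V)) (a b : V) : Prop :=
  ∀ T ∈ F, a ∈ T → insert b T ∈ F

theorem result {V : Type*} [DecidableEq V] (F : Finset (Finset V)) (C : Finset V)
    (hCF : C ∈ F) (hsub : ∀ T ∈ F, T ⊆ C) (hunion : ∀ X ∈ F, ∀ Y ∈ F, X ∪ Y ∈ F)
    (hconn : ∀ x ∈ C, ∀ y ∈ C, Relation.ReflTransGen (fun a b => b ∈ C ∧ Carries F a b) x y) :
    F = C.powerset ∨ F = {∅, C} ∨
      ∃ x ∈ C, F.card < 2 * (F.filter (fun T => x ∈ T)).card := by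
  by_cases h : ∀ x ∈ C, 2 * (F.filter (fun T => x ∈ T)).card ≤ F.card
  · rcases Pool.Agent.W87.UC.tight hunion hCF hsub hconn h with h | h
    · exact Or.inr (Or.inl h)
    · exact Or.inl h
  · push Not at h
    exact Or.inr (Or.inr h)

/-- The form of the question: a separating family of this kind which is not a power set has an
element in strictly more than half of its members. -/
theorem separating {V : Type*} [DecidableEq V] (F : Finset (Finset V)) (C : Finset V)
    (hC : C.Nonempty) (hCF : C ∈ F) (hsub : ∀ T ∈ F, T ⊆ C)
    (hU : ∀ X ∈ F, ∀ Y ∈ F, X ∪ Y ∈ F)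
    (hconn : ∀ x ∈ C, ∀ y ∈ C, Relation.ReflTransGen (fun a b => b ∈ C ∧ Carries F a b) x y)
    (hsep : ∀ x ∈ C, ∀ y ∈ C, x ≠ y → ∃ T ∈ F, ¬ (x ∈ T ↔ y ∈ T)) (hpow : F ≠ C.powerset) :
    ∃ x ∈ C, F.card < 2 * (F.filter (fun T => x ∈ T)).card := by
  rcases result F C hCF hsub hU hconn with h | h | h
  · exact absurd h hpow
  · obtain ⟨c, hc⟩ := hC
    have hall : ∀ x ∈ C, x = c := by
      intro x hx
      by_contra hne
      obtain ⟨T, hT, hT'⟩ := hsep x hx c hc hne
      rw [h, mem_insert, mem_singleton] at hT
      rcases hT with hT | hT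
      · subst hT
        exact hT' ⟨fun h => absurd h (notMem_empty _), fun h => absurd h (notMem_empty _)⟩
      · subst hT
        exact hT' ⟨fun _ => hc, fun _ => hx⟩
    exfalso
    apply hpow
    have hCc : C = {c} := by
      ext x
      rw [mem_singleton]
      exact ⟨hall x, fun h => h ▸ hc⟩
    rw [h]
    ext T
    rw [mem_insert, mem_singleton, mem_powerset]
    constructor
    · rintro (h | h)
      · rw [h]; exact empty_subset _
      · rw [h]
    · intro hT
      rcases T.eq_empty_or_nonempty with h0 | ⟨y, hy⟩
      · exact Or.inl h0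
      · right
        rw [hCc] at hT ⊢
        have hyc : y = c := mem_singleton.1 (hT hy)
        exact Subset.antisymm hT (by rw [singleton_subset_iff, ← hyc]; exact hy)
  · exact h

end Pool.Agent.Results.MP_75f39d_co.StronglyConnected
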