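import Pool.Agent.W912.PB.Main

set_option autoImplicit false

/-!
# Poonen's strengthening of the union-closed sets conjecture for almost every random bipartite graph

A random bipartite graph with classes of sizes `m` and `n` and edge probability `p` is a random
`m × n` matrix `M` with independent entries. `fam M` is the union-closed family generated by its
rows (the neighbourhoods of the vertices of the first class), `fam (tr M)` the one generated by its
columns.

Proof. The starting files show that almost always the mean size of the members is at least `n / 2`
or there is an element in all nonempty members. Here all inequalities are made strict: the only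
exceptions are the power set of the whole ground set and families with at most two members.
-/

namespace Pool.Agent.Results.MP_75f39d_co.ZRandomBipartite

open Finset Pool.Agent.H161R2.UC
open scoped Classical

/-- The universe: the union of all members. -/
def base {n : ℕ} (A : Finset (Finset (Fin n))) : Finset (Fin n) := A.sup id

/-- Any two elements of the universe are separated by some member. -/
def Separating {n : ℕ} (A : Finset (Finset (Fin n))) : Prop :=
  ∀ x ∈ base A, ∀ y ∈ base A, x ≠ y → ∃ S ∈ A, (x ∈ S ∧ y ∉ S) ∨ (x ∉ S ∧ y ∈ S)

/-- Some element lies in strictly more than half of the members. -/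
def MoreThanHalf {n : ℕ} (A : Finset (Finset (Fin n))) : Prop :=
  ∃ x : Fin n, A.card < 2 * (A.filter (fun S => x ∈ S)).card

/-- The assertion of Poonen's conjecture for the family `A`. -/
def Poonen {n : ℕ} (A : Finset (Finset (Fin n))) : Prop :=
  Separating A → A ≠ (base A).powerset → MoreThanHalf A

/-- The strong form for a family on the ground set `Fin n`: some element lies in strictly more than
half of the members unless the family consists of all subsets of the ground set or has at most two
members. -/
def Strong {n : ℕ} (A : Finset (Finset (Fin n))) : Prop :=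
  MoreThanHalf A ∨ A = univ ∨ A.card ≤ 2

theorem poonen_of_strong {m n : ℕ} (M : Mat m n) (h : Strong (fam M)) : Poonen (fam M) := by
  intro hsep hpow
  rcases h with h | h | h
  · exact h
  · exfalso
    apply hpow
    have hu : base (fam M) = univ := by
      rw [h]
      unfold base
      apply Finset.eq_univ_of_forall
      intro x
      rw [Finset.mem_sup]
      exact ⟨univ, Finset.mem_univ _, Finset.mem_univ _⟩
    rw [hu, h, Finset.powerset_univ]
  · exfalso
    have h0 := empty_mem_fam M
    have hmu : ∀ x, x ∈ base (fam M) ↔ ∃ S ∈ fam M, x ∈ S := by
      intro x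
      unfold base
      rw [Finset.mem_sup]
      rfl
    by_cases hall : ∀ S ∈ fam M, S = ∅
    · apply hpow
      have h1 : fam M = {∅} := by
        ext S
        rw [Finset.mem_singleton]
        exact ⟨hall S, fun h => h ▸ h0⟩
      have h2 : base (fam M) = ∅ := by
        rw [Finset.eq_empty_iff_forall_notMem]
        intro x hx
        obtain ⟨S, hS, hxS⟩ := (hmu x).1 hx
        rw [hall S hS] at hxS
        simp at hxS
      rw [h2, Finset.powerset_empty, h1]
    · push Not at hall
      obtain ⟨B, hB, hBne⟩ := hall
      have h1 : fam M = {∅, B} := by
        symm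
        apply Finset.eq_of_subset_of_card_le
        · intro S hS
          rw [Finset.mem_insert, Finset.mem_singleton] at hS
          rcases hS with rfl | rfl
          · exact h0
          · exact hB
        · rw [Finset.card_pair (Finset.nonempty_iff_ne_empty.1 hBne).symm]
          exact h
      have h2 : base (fam M) = B := by
        ext x
        rw [hmu, h1]
        constructor
        · rintro ⟨S, hS, hxS⟩
          rw [Finset.mem_insert, Finset.mem_singleton] at hS
          rcases hS with rfl | rfl
          · simp at hxS
          · exact hxS
        · intro hx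
          exact ⟨B, by simp, hx⟩
      obtain ⟨b, hb⟩ := hBne
      have h3 : B = {b} := by
        rw [Finset.eq_singleton_iff_unique_mem]
        refine ⟨hb, fun x hx => ?_⟩
        by_contra hne
        obtain ⟨S, hS, hSx⟩ := hsep x (by rw [h2]; exact hx) b (by rw [h2]; exact hb) hne
        rw [h1, Finset.mem_insert, Finset.mem_singleton] at hS
        rcases hS with rfl | rfl
        · simp at hSx
        · rcases hSx with hSx | hSx
          · exact hSx.2 hb
          · exact hSx.1 hx
      apply hpow
      rw [h2, h1]
      ext S
      rw [Finset.mem_insert, Finset.mem_singleton, Finset.mem_powerset]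
      rw [h3, Finset.subset_singleton_iff]

/-- **Poonen's strengthening holds for almost every random bipartite graph.** For every fixed `p`
in `(0, 1)` the probability that the strong form fails for one of the two union-closed families of a
random bipartite graph with classes of sizes `m`, `n` and edge probability `p` tends to `0` as
`m + n → ∞` (uniformly in how `m` and `n` are related); the strong form implies Poonen's
assertion. -/
theorem result :
    (∀ (m n : ℕ) (M : Mat m n), Strong (fam M) → Poonen (fam M)) ∧
    ∀ p : ℝ, 0 < p → p < 1 → ∀ ε : ℝ, 0 < ε → ∃ N : ℕ, ∀ m n : ℕ, 0 < m → 0 < n → N ≤ m + n →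
      Pr p (fun M : Mat m n => ¬ (Strong (fam M) ∧ Strong (fam (tr M)))) ≤ ε ∧
      Pr p (fun M : Mat m n => ¬ (Poonen (fam M) ∧ Poonen (fam (tr M)))) ≤ ε := by
  refine ⟨fun m n M => poonen_of_strong M, fun p hp0 hp1 ε hε => ?_⟩
  obtain ⟨N, hN⟩ := Pool.Agent.W912.PB.main_one hp0 hp1 (show 0 < ε / 2 by linarith)
  refine ⟨N, fun m n hm hn hmn => ?_⟩
  have key : Pr p (fun M : Mat m n => ¬ (Strong (fam M) ∧ Strong (fam (tr M)))) ≤ ε := by
    calc Pr p (fun M : Mat m n => ¬ (Strong (fam M) ∧ Strong (fam (tr M))))
        ≤ Pr p (fun M : Mat m n => ¬ Pool.Agent.W912.PB.Str M ∨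
            ¬ Pool.Agent.W912.PB.Str (tr M)) :=
          Pr_mono hp0.le hp1.le fun M hM => not_and_or.mp hM
      _ ≤ Pr p (fun M : Mat m n => ¬ Pool.Agent.W912.PB.Str M) +
            Pr p (fun M : Mat m n => ¬ Pool.Agent.W912.PB.Str (tr M)) :=
          Pr_or hp0.le hp1.le _ _
      _ ≤ ε / 2 + ε / 2 := by
          refine add_le_add (hN m n hm hn hmn) ?_
          rw [Pr_tr p (fun M : Mat n m => ¬ Pool.Agent.W912.PB.Str M)]
          exact hN n m hn hm (by omega)
      _ = ε := by ring
  refine ⟨key, le_trans (Pr_mono hp0.le hp1.le (fun M hM => ?_)) key⟩
  intro h
  exact hM ⟨poonen_of_strong M h.1, poonen_of_strong (tr M) h.2⟩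

end Pool.Agent.Results.MP_75f39d_co.ZRandomBipartite
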